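import Mathlib

/-!
# The numbers of the piece `OL1Bs` (LP: helper11)

`x`, `y`, `z` are the heights of the rows `p`, `r`, `s` (in `[0, 3/5]`, with sum at most `9/10`).
Names as in `Helper8.TS.OL1Ar`: `np`, `nr`, `ns`: multipliers of the rows; `kpr`, `kps`, `krs`:
multipliers of the pairs; `mps`, `mrs`: the shares of the pairs in the columns `r`, `p` (the share of
`p`, `r` is `0`); `Wp`, `Wr`, `Ws`: the bounds of the columns with two rows (`Wp0`, `Wr0` without the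
cell of the low class); `Wa`: the bound of the column of the low class; `sg`: the multiplier of
`1 - d` in the witness column `s`; `gg`: the bound of the gains; `fp`, `fr`, `fs`: the bounds of the
gain of a cell; `Bzy w c`: the bound of the gain of the cell of the column `z` that supports `c` in
the column `y`.
-/

set_option autoImplicit false

namespace Pool.Agent.Helper11.TS.OL1Bs

noncomputable def np (x : ℝ) : ℝ := 481 / 1000 + 9 / 400 * x - 3483 / 10000 * x ^ 2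

noncomputable def nr (y : ℝ) : ℝ := 9031 / 10000 - 236 / 625 * y - 1 / 20 * y ^ 2

noncomputable def ns (z : ℝ) : ℝ := 747 / 1000 - 791 / 10000 * z - 2053 / 5000 * z ^ 2

noncomputable def kpr (x y : ℝ) : ℝ :=
  1247 / 2500 - 4831 / 10000 * x - 987 / 2500 * y + 3841 / 10000 * (x * y)

noncomputable def kps (x z : ℝ) : ℝ :=
  723 / 2500 - 234 / 625 * x - 517 / 2000 * z + 5187 / 10000 * (x * z)

noncomputable def krs (y z : ℝ) : ℝ :=
  963 / 2000 - 5787 / 10000 * y - 597 / 1000 * z + 9629 / 10000 * (y * z)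

noncomputable def mps (x z : ℝ) : ℝ :=
  1061 / 10000 - 709 / 10000 * x - 183 / 2500 * z + 233 / 2000 * (x * z)

noncomputable def mrs (y z : ℝ) : ℝ :=
  1811 / 10000 - 2087 / 10000 * y - 391 / 2000 * z + 4113 / 10000 * (y * z)

noncomputable def Wp (y z : ℝ) : ℝ :=
  2231 / 5000 + 2821 / 5000 * y + 971 / 2000 * z - 1117 / 5000 * y ^ 2 - 293 / 2000 * z ^ 2
    + 243 / 1250 * (y * z)

noncomputable def Wr (x z : ℝ) : ℝ :=
  3009 / 10000 + 589 / 1250 * x + 3393 / 5000 * z - 709 / 5000 * x ^ 2 - 821 / 2000 * z ^ 2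
    - 599 / 2500 * (x * z)

noncomputable def Ws (x y : ℝ) : ℝ :=
  -(319 / 1000) + 2477 / 5000 * x + 1501 / 5000 * y - 2 / 625 * x ^ 2 + 341 / 5000 * y ^ 2
    + 1061 / 5000 * (x * y)

noncomputable def Wp0 (y z : ℝ) : ℝ := Wp y z - 13 / 10000

noncomputable def Wr0 (x z : ℝ) : ℝ := Wr x z - 1 / 625

noncomputable def Wa (x y z : ℝ) : ℝ :=
  2589 / 5000 + 547 / 2000 * x + 753 / 5000 * y + 1173 / 5000 * z + 149 / 5000 * x ^ 2
    + 2959 / 10000 * y ^ 2 + 2363 / 10000 * z ^ 2 + 537 / 2000 * (x * y) + 367 / 1250 * (x * z)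
    + 49 / 625 * (y * z)

noncomputable def sg (x : ℝ) : ℝ := 4083 / 10000 - 679 / 2500 * x

noncomputable def gg (x y z : ℝ) : ℝ := 7479 / 10000 + 131 / 10000 * y + 3 / 125 * z

noncomputable def fp (w : ℝ) : ℝ :=
  23 / 10000 + 711 / 10000 * w + 529 / 2500 * w ^ 2 + 307 / 10000 * w ^ 3

noncomputable def fr (w : ℝ) : ℝ :=
  43 / 10000 + 2059 / 10000 * w + 2869 / 10000 * w ^ 2 - 871 / 10000 * w ^ 3

noncomputable def fs (w : ℝ) : ℝ :=
  3337 / 10000 + 1681 / 10000 * w + 253 / 2500 * w ^ 2 + 153 / 1250 * w ^ 3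

noncomputable def Bpr (w c : ℝ) : ℝ :=
  7 / 2500 + 21 / 400 * w + 2531 / 10000 * w ^ 2 + 8 / 625 * w ^ 3 - 23 / 2000 * c
    + 37 / 2500 * c ^ 2 + 1827 / 10000 * (w * c) - 593 / 2000 * (w ^ 2 * c)
    - 116 / 625 * (w * c ^ 2)

noncomputable def Bps (w c : ℝ) : ℝ :=
  21 / 10000 + 1983 / 10000 * w + 61 / 500 * w ^ 2 + 47 / 10000 * w ^ 3 + 201 / 2000 * c
    - 493 / 5000 * c ^ 2 - 571 / 5000 * (w * c) - 161 / 1250 * (w ^ 2 * c)
    - 657 / 10000 * (w * c ^ 2)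

noncomputable def Brp (w c : ℝ) : ℝ :=
  39 / 2500 + 1471 / 5000 * w + 943 / 10000 * w ^ 2 + 67 / 2000 * w ^ 3 + 119 / 5000 * c
    - 109 / 5000 * c ^ 2 + 1091 / 10000 * (w * c) - 57 / 500 * (w ^ 2 * c)
    - 1719 / 5000 * (w * c ^ 2)

noncomputable def Brs (w c : ℝ) : ℝ :=
  251 / 5000 + 569 / 2500 * w + 537 / 5000 * w ^ 2 - 827 / 10000 * c + 327 / 10000 * c ^ 2
    - 379 / 10000 * (w * c) - 537 / 5000 * (w ^ 2 * c) - 1887 / 10000 * (w * c ^ 2)

noncomputable def Bsp (w c : ℝ) : ℝ :=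
  667 / 2000 + 953 / 10000 * w + 2331 / 10000 * w ^ 2 + 383 / 5000 * w ^ 3 + 81 / 10000 * c
    - 41 / 5000 * c ^ 2 + 3363 / 10000 * (w * c) - 1917 / 5000 * (w ^ 2 * c)
    - 2667 / 10000 * (w * c ^ 2)

noncomputable def Bsr (w c : ℝ) : ℝ :=
  227 / 625 + 1927 / 10000 * w + 123 / 1000 * w ^ 2 + 269 / 10000 * w ^ 3 + 707 / 5000 * c
    - 2849 / 10000 * c ^ 2 - 103 / 500 * (w * c) - 933 / 5000 * (w ^ 2 * c)
    + 591 / 5000 * (w * c ^ 2)

end Pool.Agent.Helper11.TS.OL1Bs
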